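import Pool.Agent.N641.VB.Stm

set_option autoImplicit false

/-!
# Project VB: addition is open (helper97)
-/

namespace Pool.Agent.N97.VB

open Pool.Agent.N641.VB

theorem OPN : S_OPN := by
  intro M _ _ p q s k hp hq hs hk
  obtain ⟨C, _, mC, c, hC, rfl⟩ := hp
  obtain ⟨D, _, mD, d, hD, rfl⟩ := hq
  obtain ⟨A, _, mu, a, hA, rfl⟩ := hs
  have h1 : ((tp mC k c, 0) : TP M k × TP M k) ∈ (ft mC c (k + 1)).2 :=
    ⟨c, le_rfl, by rw [sdiff_self, tp_bot hC]⟩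
  have h2 : ((0, tp mD k d) : TP M k × TP M k) ∈ (ft mD d (k + 1)).2 :=
    ⟨⊥, bot_le, by rw [tp_bot hD, sdiff_bot]⟩
  have h3 : ((tp mC k c, tp mD k d) : TP M k × TP M k) ∈ ((ft mC c + ft mD d) (k + 1)).2 := by
    refine ⟨_, h1, _, h2, ?_⟩
    show _ = (tp mC k c + 0, 0 + tp mD k d)
    rw [add_zero, zero_add]
  rw [← hk] at h3
  obtain ⟨b, hb, h4⟩ := h3
  refine ⟨ft mu b, ft mu (a \ b), ⟨A, _, mu, b, hA, rfl⟩, ⟨A, _, mu, a \ b, hA, rfl⟩, ?_, ?_, ?_⟩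
  · rw [← ft_sup hA _ _ disjoint_sdiff_self_right, sup_sdiff_cancel_right hb]
  · intro j hj
    exact tp_mono hj (congrArg Prod.fst h4).symm
  · intro j hj
    exact tp_mono hj (congrArg Prod.snd h4).symm

end Pool.Agent.N97.VB
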